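import Pool.Agent.W4.CF.All
import Pool.Agent.W4.CF.Global

namespace Pool.Agent.Results.MP_d8bd92_nt.CubicTwoDivision

open Finset NumberField

/-- the product of the distinct primes dividing `Δ(W)` (the conductor if `gcd(c₄, Δ) = 1`) -/
def conductor (W : WeierstrassCurve ℤ) : ℕ := ∏ p ∈ W.Δ.natAbs.primeFactors, p

/-- there is a point of order two whose `x`-coordinate lies in `K` but not in `ℚ`: the 2-division
polynomial `4x³ + b₂x² + 2b₄x + b₆` has an irrational root in `K` -/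
def HasPointOverK (K : Type) [Field K] [NumberField K] (W : WeierstrassCurve ℤ) : Prop :=
  ∃ θ : K, (∀ r : ℚ, θ ≠ algebraMap ℚ K r) ∧
    4 * θ ^ 3 + (W.b₂ : K) * θ ^ 2 + 2 * (W.b₄ : K) * θ + (W.b₆ : K) = 0

/-- the invariants `(c₄, c₆)` of the integral Weierstrass curves with `Δ ≠ 0` and `gcd(c₄, Δ) = 1`
(the minimal models of the semistable elliptic curves over `ℚ`) having a point of order two over
`K` (not rational), naive height `max (|c₄|³, c₆²) ≤ X⁶` and `c₀ N ^ κ < |Δ|` -/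
def Exceptional (K : Type) [Field K] [NumberField K] (κ c₀ : ℝ) (X : ℕ) : Set (ℤ × ℤ) :=
  {q | ∃ W : WeierstrassCurve ℤ, W.Δ ≠ 0 ∧ IsCoprime W.c₄ W.Δ ∧ HasPointOverK K W ∧
    q = (W.c₄, W.c₆) ∧ |W.c₄| ^ 3 ≤ (X : ℤ) ^ 6 ∧ W.c₆ ^ 2 ≤ (X : ℤ) ^ 6 ∧
    c₀ * (conductor W : ℝ) ^ κ < |(W.Δ : ℝ)|}

/-- Let `K` be a cubic field. For all `κ ≥ 6` and `c₀, ε > 0` there is `C` such that for every
`X ≥ 1` at most `C X ^ (min (1/8 + 9/(2κ)) (11/(2κ)) + ε)` isomorphism classes of semistable elliptic curves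
over `ℚ` with a point of order two over `K` which is not rational and naive height at most `X⁶`
have `c₀ N ^ κ < |Δ|`. -/
theorem result (K : Type) [Field K] [NumberField K] (hK : Module.finrank ℚ K = 3)
    (κ c₀ ε : ℝ) (hκ : 6 ≤ κ) (hc₀ : 0 < c₀) (hε : 0 < ε) :
    ∃ C : ℝ, ∀ X : ℕ, 1 ≤ X →
      (Exceptional K κ c₀ X).Finite ∧
      ((Exceptional K κ c₀ X).ncard : ℝ) ≤
        C * (X : ℝ) ^ (min (1 / 8 + 9 / (2 * κ)) (11 / (2 * κ)) + ε) := by
  obtain ⟨C, -, h⟩ := Pool.Agent.W4.CF.core_semi Pool.Agent.W4.CF.hT Pool.Agent.W4.CF.hP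
    Pool.Agent.W4.CF.hC K hK κ c₀ ε hκ hc₀ hε
  exact ⟨C, h⟩

end Pool.Agent.Results.MP_d8bd92_nt.CubicTwoDivision
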