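import Pool.Agent.W4.QD.All2
import Pool.Agent.W4.QD.Semi

/-!
Szpiro's inequality for the semistable elliptic curves over `ℚ` with the same points of order three
as a given curve `E₀` whose 3-division polynomial is irreducible.
-/

set_option autoImplicit false

namespace Pool.Agent.Results.MP_d8bd92_nt.ThreeCongruence

open Finset

/-- the product of the distinct primes dividing `Δ(W)` (the conductor if `gcd(c₄, Δ) = 1`) -/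
def conductor (W : WeierstrassCurve ℤ) : ℕ := ∏ p ∈ W.Δ.natAbs.primeFactors, p

/-- the first coefficient of the member `(s : t)` of the pencil of `y² = x³ - a x - b` -/
def pencilA (a b s t : ℚ) : ℚ :=
  a * s ^ 4 + 18 * b * s ^ 3 * t + 18 * a ^ 2 * s ^ 2 * t ^ 2 + 54 * a * b * s * t ^ 3 +
    (243 * b ^ 2 - 27 * a ^ 3) * t ^ 4

/-- the second coefficient -/
def pencilB (a b s t : ℚ) : ℚ :=
  b * s ^ 6 + 4 * a ^ 2 * s ^ 5 * t + 45 * a * b * s ^ 4 * t ^ 2 + 270 * b ^ 2 * s ^ 3 * t ^ 3 +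
    135 * a ^ 2 * b * s ^ 2 * t ^ 4 + (108 * a ^ 4 - 486 * a * b ^ 2) * s * t ^ 5 +
    (243 * a ^ 3 * b - 1458 * b ^ 3) * t ^ 6

/-- `W` (that is `y² = x³ - 27c₄ x - 54c₆`) is isomorphic over `ℚ` to `y² = x³ - A x - B` with
`A = pencilA a₀ b₀ s t`, `B = pencilB a₀ b₀ s t` for some `s, t ∈ ℚ` (the family of the curves whose
points of order three are those of `y² = x³ - a₀ x - b₀`, compatibly with the Weil pairing) -/
def InPencil (a₀ b₀ : ℤ) (W : WeierstrassCurve ℤ) : Prop :=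
  ∃ u s t : ℚ, u ≠ 0 ∧ (27 * W.c₄ : ℚ) = u ^ 4 * pencilA a₀ b₀ s t ∧
    (54 * W.c₆ : ℚ) = u ^ 6 * pencilB a₀ b₀ s t

/-- the invariants `(c₄, c₆)` of the integral Weierstrass curves with `Δ ≠ 0` and `gcd(c₄, Δ) = 1`
(the minimal models of the semistable elliptic curves over `ℚ`) in the pencil of
`y² = x³ - a₀ x - b₀`, with naive height `max (|c₄|³, c₆²) ≤ X⁶` and `c₀ N ^ κ < |Δ|` -/
def Exceptional (a₀ b₀ : ℤ) (κ c₀ : ℝ) (X : ℕ) : Set (ℤ × ℤ) :=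
  {q | ∃ W : WeierstrassCurve ℤ, W.Δ ≠ 0 ∧ IsCoprime W.c₄ W.Δ ∧ InPencil a₀ b₀ W ∧
    q = (W.c₄, W.c₆) ∧ |W.c₄| ^ 3 ≤ (X : ℤ) ^ 6 ∧ W.c₆ ^ 2 ≤ (X : ℤ) ^ 6 ∧
    c₀ * (conductor W : ℝ) ^ κ < |(W.Δ : ℝ)|}

open Polynomial in
/-- Let `E₀ : y² = x³ - a₀ x - b₀` be an elliptic curve with irreducible 3-division polynomial
`3x⁴ - 6a₀x² - 12b₀x - a₀²`. For all `κ ≥ 6` and `c₀, ε > 0` there is `C` such that for every
`X ≥ 1` at most `C X ^ (min (33/(7κ)) (max (6/κ - 3/7) (6/13 + 6/(13κ))) + ε)` isomorphism classes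
of semistable elliptic curves in the pencil of `E₀` of naive height at most `X⁶` have
`c₀ N ^ κ < |Δ|`. -/
theorem result (a₀ b₀ : ℤ) (h₀ : 4 * a₀ ^ 3 - 27 * b₀ ^ 2 ≠ 0)
    (hirr : Irreducible (3 * X ^ 4 - C (6 * (a₀ : ℚ)) * X ^ 2 - C (12 * (b₀ : ℚ)) * X -
      C ((a₀ : ℚ) ^ 2) : ℚ[X]))
    (κ c₀ ε : ℝ) (hκ : 6 ≤ κ) (hc₀ : 0 < c₀) (hε : 0 < ε) :
    ∃ C : ℝ, ∀ X : ℕ, 1 ≤ X →
      (Exceptional a₀ b₀ κ c₀ X).Finite ∧
      ((Exceptional a₀ b₀ κ c₀ X).ncard : ℝ) ≤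
        C * (X : ℝ) ^ (min (33 / (7 * κ)) (max (6 / κ - 3 / 7) (6 / 13 + 6 / (13 * κ))) + ε) := by
  obtain ⟨C, -, h⟩ := Pool.Agent.W4.QD.pen_semi Pool.Agent.W4.QD.hTR Pool.Agent.W154.QD.t_NRM
    Pool.Agent.W4.QD.t_PEN2 a₀ b₀ h₀ (Pool.Agent.W4.QD.irr_psi a₀ b₀ hirr) κ c₀ ε hκ hc₀ hε
  rw [Pool.Agent.W4.QD.eD_four κ (by linarith)] at h
  exact ⟨C, h⟩

end Pool.Agent.Results.MP_d8bd92_nt.ThreeCongruence
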