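import Pool.Agent.W271.Three.SemiMain

namespace Pool.Agent.Results.MP_d8bd92_nt.ThreeIsogeny

open Finset

/-- the product of the distinct primes dividing `Δ(W)` (the conductor if `gcd(c₄, Δ) = 1`) -/
def conductor (W : WeierstrassCurve ℤ) : ℕ := ∏ p ∈ W.Δ.natAbs.primeFactors, p

/-- there is a rational isogeny of degree 3 (a rational subgroup of order 3): the 3-division
polynomial `3x⁴ + b₂x³ + 3b₄x² + 3b₆x + b₈` has a rational root -/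
def HasThreeIsogeny (W : WeierstrassCurve ℤ) : Prop :=
  ∃ r : ℚ, 3 * r ^ 4 + W.b₂ * r ^ 3 + 3 * W.b₄ * r ^ 2 + 3 * W.b₆ * r + W.b₈ = 0

/-- the invariants `(c₄, c₆)` of the integral Weierstrass curves with `Δ ≠ 0` and `gcd(c₄, Δ) = 1`
(the minimal models of the semistable elliptic curves over `ℚ`) having a rational 3-isogeny,
naive height `max (|c₄|³, c₆²) ≤ X⁶` and `c₀ N ^ κ < |Δ|` -/
def Exceptional (κ c₀ : ℝ) (X : ℕ) : Set (ℤ × ℤ) :=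
  {q | ∃ W : WeierstrassCurve ℤ, W.Δ ≠ 0 ∧ IsCoprime W.c₄ W.Δ ∧ HasThreeIsogeny W ∧
    q = (W.c₄, W.c₆) ∧ |W.c₄| ^ 3 ≤ (X : ℤ) ^ 6 ∧ W.c₆ ^ 2 ≤ (X : ℤ) ^ 6 ∧
    c₀ * (conductor W : ℝ) ^ κ < |(W.Δ : ℝ)|}

/-- For all `κ ≥ 6` and `c₀, ε > 0` there is `C` such that for every `X ≥ 1` at most
`C X ^ (min (9/11) (2/7 + 24/(7κ)) + ε)` isomorphism classes of semistable elliptic curves over `ℚ`
with a rational 3-isogeny and naive height at most `X⁶` have `c₀ N ^ κ < |Δ|`. -/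
theorem result (κ c₀ ε : ℝ) (hκ : 6 ≤ κ) (hc₀ : 0 < c₀) (hε : 0 < ε) :
    ∃ C : ℝ, ∀ X : ℕ, 1 ≤ X →
      (Exceptional κ c₀ X).Finite ∧
      ((Exceptional κ c₀ X).ncard : ℝ) ≤
        C * (X : ℝ) ^ (min (9 / 11) (2 / 7 + 24 / (7 * κ)) + ε) := by
  obtain ⟨C, -, h⟩ := Pool.Agent.W271.Three.semi_three_count κ c₀ ε hκ hc₀ hε
  refine ⟨C, fun X hX => ?_⟩
  obtain ⟨h1, h2⟩ := h X hX
  have hsub : Exceptional κ c₀ X ⊆ Pool.Agent.W271.Three.ExcSS κ c₀ X := by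
    rintro q ⟨W, q1, q2, q3, q4, q5, q6, q7⟩
    refine ⟨W, q1, q2, q3, q4, q5, q6, lt_of_lt_of_le q7 ?_⟩
    have hrel : 1728 * (W.Δ : ℝ) = (W.c₄ : ℝ) ^ 3 - (W.c₆ : ℝ) ^ 2 := by
      exact_mod_cast W.c_relation
    have e1 : 1728 * |(W.Δ : ℝ)| ≤ |(W.c₄ : ℝ)| ^ 3 + (W.c₆ : ℝ) ^ 2 := by
      calc 1728 * |(W.Δ : ℝ)| = |1728 * (W.Δ : ℝ)| := by rw [abs_mul]; norm_num
        _ = |(W.c₄ : ℝ) ^ 3 - (W.c₆ : ℝ) ^ 2| := by rw [hrel]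
        _ ≤ |(W.c₄ : ℝ) ^ 3| + |(W.c₆ : ℝ) ^ 2| := abs_sub _ _
        _ = _ := by rw [abs_pow, abs_of_nonneg (sq_nonneg (W.c₆ : ℝ))]
    have e2 := le_max_left (|(W.c₄ : ℝ)| ^ 3) ((W.c₆ : ℝ) ^ 2)
    have e3 := le_max_right (|(W.c₄ : ℝ)| ^ 3) ((W.c₆ : ℝ) ^ 2)
    have e4 : 0 ≤ (W.c₆ : ℝ) ^ 2 := sq_nonneg _
    linarith
  refine ⟨h1.subset hsub, le_trans ?_ h2⟩
  exact_mod_cast Set.ncard_le_ncard hsub h1

end Pool.Agent.Results.MP_d8bd92_nt.ThreeIsogeny
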